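import Pool.Agent.Helper25.LS.Defs

/-!
# An equivalent parallelogram norm on a finite-dimensional space (EQ)
-/

set_option autoImplicit false

open Filter Topology Module

namespace Pool.Agent.Helper60.LS

open Pool.Agent.Helper25.LS

/-- EQ. -/
theorem eq (h1 : S_HI) : S_EQ := by
  intro X _ _ E _ C N hN hadd hsm hpar hC
  have : CompleteSpace E := FiniteDimensional.complete ℂ E
  obtain ⟨H, iH1, iH2, iH3, Φ, hΦ⟩ := h1 E C N hN hadd hsm hpar
  let _ := iH1
  let _ := iH2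
  have _ := iH3
  have : FiniteDimensional ℂ H := Φ.toLinearEquiv.finiteDimensional
  let b := stdOrthonormalBasis ℂ H
  let u : E ≃L[ℂ] EuclideanSpace ℂ (Fin (finrank ℂ H)) :=
    Φ.trans b.repr.toContinuousLinearEquiv
  have hu : ∀ x : E, ‖u x‖ = N x := by
    intro x
    change ‖b.repr (Φ x)‖ = N x
    rw [LinearIsometryEquiv.norm_map, hΦ]
  refine ⟨finrank ℂ H, u, ?_⟩
  have h2 : ‖(u : E →L[ℂ] EuclideanSpace ℂ (Fin (finrank ℂ H)))‖ ≤ C := by
    apply ContinuousLinearMap.opNorm_le_bound _ hC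
    intro x
    change ‖u x‖ ≤ C * ‖x‖
    rw [hu]
    exact (hN x).2
  have h3 : ‖(u.symm : EuclideanSpace ℂ (Fin (finrank ℂ H)) →L[ℂ] E)‖ ≤ 1 := by
    apply ContinuousLinearMap.opNorm_le_bound _ zero_le_one
    intro z
    change ‖u.symm z‖ ≤ 1 * ‖z‖
    have h4 := (hN (u.symm z)).1
    rw [← hu, ContinuousLinearEquiv.apply_symm_apply] at h4
    rw [one_mul]
    exact h4
  calc ‖(u : E →L[ℂ] EuclideanSpace ℂ (Fin (finrank ℂ H)))‖ *
      ‖(u.symm : EuclideanSpace ℂ (Fin (finrank ℂ H)) →L[ℂ] E)‖ ≤ C * 1 :=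
        mul_le_mul h2 h3 (ContinuousLinearMap.opNorm_nonneg _) hC
    _ = C := mul_one C

end Pool.Agent.Helper60.LS
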